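import Pool.Agent.H95.AV.Main

/-!
# MP_af18c6_pr: Q1 for finite-state couplings

If there is an avoidance coupling of `k` walkers on `G` (`K_n` or `K_n^*`) whose joint positions are a
function of a Markov chain with finitely many states (any initial law), then there is a stationary
avoidance coupling of `k` walkers of minimum entropy on `G`.
-/

set_option autoImplicit false

namespace Pool.Agent.Results.MP_af18c6_pr.FiniteState

open Pool.Agent.H95.AV MeasureTheory

theorem result (loops : Bool) (k n : ℕ) (hk : 2 ≤ k)
    (h : ∃ μ : Measure (ℕ → Fin k → Fin n), Model.IsAvoidanceCoupling loops k n μ ∧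
      Model.IsFiniteState μ) :
    Model.HasMinimumEntropyCoupling loops k n :=
  main_fs loops k n hk h loops n (Or.inl ⟨rfl, rfl⟩)

end Pool.Agent.Results.MP_af18c6_pr.FiniteState
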