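import Pool.Agent.H95.AV.Main

/-!
# MP_af18c6_pr: minimum-entropy avoidance couplings of up to half as many walkers as vertices

For all `k ≥ 2` and `n ≥ 2 k` there is a stationary avoidance coupling of `k` walkers on `K_n`, and one
on `K_n^*` (loops), whose entropy rate is that of a single walker.
-/

set_option autoImplicit false

namespace Pool.Agent.Results.MP_af18c6_pr.HalfOccupied

open Pool.Agent.H95.AV

theorem result (loops : Bool) (k n : ℕ) (hk : 2 ≤ k) (hn : 2 * k ≤ n) :
    Model.HasMinimumEntropyCoupling loops k n :=
  main_half loops k n hk hn

end Pool.Agent.Results.MP_af18c6_pr.HalfOccupied
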