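import Pool.Agent.H95.AV.Main

/-!
# MP_af18c6_pr: persistence of minimum entropy on larger graphs

If there is an avoidance coupling of `k` walkers on `K_n` or `K_n^*` whose joint positions are a function
of a Markov chain with finitely many states (any initial law), then there is a stationary avoidance
coupling of `k` walkers of minimum entropy on `K_m^*` for every `m ≥ n`.
-/

set_option autoImplicit false

namespace Pool.Agent.Results.MP_af18c6_pr.Persistence

open Pool.Agent.H95.AV MeasureTheory

theorem result (loops : Bool) (k n : ℕ) (hk : 2 ≤ k)
    (h : ∃ μ : Measure (ℕ → Fin k → Fin n), Model.IsAvoidanceCoupling loops k n μ ∧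
      Model.IsFiniteState μ) (m : ℕ) (hm : n ≤ m) :
    Model.HasMinimumEntropyCoupling true k m :=
  main_fs loops k n hk h true m (Or.inr ⟨rfl, hm⟩)

end Pool.Agent.Results.MP_af18c6_pr.Persistence
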