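import Pool.Agent.H95.AV.Main

/-!
# MP_af18c6_pr: Q1 for two walkers

If there is any avoidance coupling of two walkers on `K_n` or on `K_n^*`, then there is a stationary one
of minimum entropy on the same graph.
-/

set_option autoImplicit false

namespace Pool.Agent.Results.MP_af18c6_pr.TwoWalkers

open Pool.Agent.H95.AV MeasureTheory

theorem result (loops : Bool) (n : ℕ)
    (h : ∃ μ : Measure (ℕ → Fin 2 → Fin n), Model.IsAvoidanceCoupling loops 2 n μ) :
    Model.HasMinimumEntropyCoupling loops 2 n :=
  main_two loops n h

end Pool.Agent.Results.MP_af18c6_pr.TwoWalkers
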